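import Pool.Agent.V1157.AJ.Defs
import Pool.Agent.V1157.KF.Core

/-!
# Modules over correspondences: bounded subquotients vanish
-/

open CategoryTheory AlgebraicGeometry

universe u v w

namespace Pool.Agent.V1157.AJ

open Pool.Agent.H914 Pool.Agent.H914.VarClass Pool.Agent.H914.VarClass.Obj Pool.Agent.W492.BB
  Pool.Agent.W550.Corr Pool.Agent.TH133 Pool.Agent.Y148.BB Pool.Agent.V1157.KF
open Pool.Agent.V1157.RC (graph_mem cog_gr cog_gr_self pow_eq_sum pow_mem' push_pull_of)

set_option linter.unusedSectionVars false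

variable {k : Type u} [Field k] {𝒱 : VarClass k} {C : TheoryData.{u, v, 0} 𝒱 ℚ}
  [hC : IsChowProj C] {n : ℕ} {F : Type} [Field F] [CharZero F]
  (M : CorrModule.{u, v, w} C n F) {S V X Y : 𝒱.Obj}

/-- The action of a correspondence as a linear map. -/
def CorrModule.L {X Y : 𝒱.Obj} (Γ : C.A (X.prod Y)) : M.M X →ₗ[F] M.M Y where
  toFun := M.act Γ
  map_add' := M.linear.map_add Γ
  map_smul' := M.linear.map_smul Γ

omit hC [CharZero F] in
lemma CorrModule.amap_zero {X Y : 𝒱.Obj} (Γ : C.A (X.prod Y)) : M.act Γ 0 = 0 :=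
  map_zero (M.L Γ)

omit hC [CharZero F] in
lemma CorrModule.amap_add {X Y : 𝒱.Obj} (Γ : C.A (X.prod Y)) (x y : M.M X) :
    M.act Γ (x + y) = M.act Γ x + M.act Γ y := M.linear.map_add Γ x y

omit hC [CharZero F] in
lemma CorrModule.amap_smul {X Y : 𝒱.Obj} (Γ : C.A (X.prod Y)) (c : F) (x : M.M X) :
    M.act Γ (c • x) = c • M.act Γ x := M.linear.map_smul Γ c x

omit hC [CharZero F] in
lemma CorrModule.amap_sum {X Y : 𝒱.Obj} (Γ : C.A (X.prod Y)) {ι : Type*} (s : Finset ι)
    (x : ι → M.M X) : M.act Γ (∑ i ∈ s, x i) = ∑ i ∈ s, M.act Γ (x i) :=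
  map_sum (M.L Γ) x s

/-- A family of subspaces which is stable under the correspondences. -/
structure Stable (P : ∀ X, M.M X → Prop) : Prop where
  add : ∀ {X : 𝒱.Obj} {x y : M.M X}, P X x → P X y → P X (x + y)
  smul : ∀ {X : 𝒱.Obj} {x : M.M X} (c : F), P X x → P X (c • x)
  act : ∀ {X Y : 𝒱.Obj} {Γ : C.A (X.prod Y)} {x : M.M X}, X.dim = n → Y.dim = n → C.Deg n Γ →
    P X x → P Y (M.act Γ x)

variable {M}

omit hC [CharZero F] in
lemma Stable.zero {P : ∀ X, M.M X → Prop} (h : Stable M P) {X : 𝒱.Obj} {x : M.M X}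
    (hx : P X x) : P X 0 := by
  have := h.smul (0 : F) hx
  rwa [zero_smul] at this

omit hC [CharZero F] in
lemma Stable.sum {P : ∀ X, M.M X → Prop} (h : Stable M P) (h0 : ∀ X, P X 0) {ι : Type*}
    (s : Finset ι) {x : ι → M.M X} (hx : ∀ i ∈ s, P X (x i)) : P X (∑ i ∈ s, x i) := by
  classical
  induction s using Finset.induction_on with
  | empty => simpa using h0 X
  | insert i s hi ih =>
    rw [Finset.sum_insert hi]
    exact h.add (hx i (Finset.mem_insert_self _ _))
      (ih fun j hj => hx j (Finset.mem_insert_of_mem hj))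

omit hC [CharZero F] in
lemma act_zero' (hX : X.dim = n) (hY : Y.dim = n) (x : M.M X) :
    M.act (0 : C.A (X.prod Y)) x = 0 := by
  have h := M.laws.smul (Γ := (0 : C.A (X.prod Y))) 0 x hX hY (Submodule.zero_mem _)
  rwa [smul_zero, Rat.cast_zero, zero_smul] at h

omit hC [CharZero F] in
lemma act_sum_zero (hX : X.dim = n) (hY : Y.dim = n) (x : M.M X) {ι : Type*} (s : Finset ι)
    {Γ : ι → C.A (X.prod Y)} (h1 : ∀ i ∈ s, C.Deg n (Γ i)) (h2 : ∀ i ∈ s, M.act (Γ i) x = 0) :
    M.act (∑ i ∈ s, Γ i) x = 0 := by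
  classical
  induction s using Finset.induction_on with
  | empty => rw [Finset.sum_empty]; exact act_zero' hX hY x
  | insert i s hi ih =>
    rw [Finset.sum_insert hi, M.laws.add x hX hY (h1 i (Finset.mem_insert_self _ _))
      (Submodule.sum_mem _ fun j hj => h1 j (Finset.mem_insert_of_mem hj)),
      h2 i (Finset.mem_insert_self _ _),
      ih (fun j hj => h1 j (Finset.mem_insert_of_mem hj))
        (fun j hj => h2 j (Finset.mem_insert_of_mem hj)), add_zero]

include hC

omit [CharZero F] in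
lemma act_pow_zero (hX : X.dim = n) (hY : Y.dim = n) {a : C.A X} {b : C.A Y}
    (ha : a ∈ C.gr X 1) (hb : b ∈ C.gr Y 1) (q : ℚ) (x : M.M X) :
    M.act (q • (C.pull (fst X Y) a + C.pull (snd X Y) b) ^ n) x = 0 := by
  rw [pow_eq_sum, Finset.smul_sum]
  have h1 : ∀ j ∈ Finset.range (n + 1), C.Deg n (C.ext (a ^ j) (b ^ (n - j))) := by
    intro j hj
    have hj' : j ≤ n := Nat.lt_succ_iff.1 (Finset.mem_range.1 hj)
    exact gr_congr (by push_cast [hj']; ring) (ext_mem' (pow_mem' ha j) (pow_mem' hb (n - j)))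
  refine act_sum_zero hX hY x _ (fun j hj => ?_) (fun j hj => ?_)
  · exact Submodule.smul_mem _ _ (Submodule.smul_mem _ _ (h1 j hj))
  · have hj' : j ≤ n := Nat.lt_succ_iff.1 (Finset.mem_range.1 hj)
    rw [smul_smul, M.laws.smul _ x hX hY (h1 j hj), M.laws.ext j x hX hY (pow_mem' ha j)
      (gr_congr (by push_cast [hj']; ring) (pow_mem' hb (n - j))), smul_zero]

section power

variable {N d : ℕ} {p : ℕ → (V ⟶ S)} {a : C.A S} {c κ : ℚ}

lemma gm (hS : S.dim = n) (p : V ⟶ S) : C.Deg n (C.graph p) := by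
  rw [← hS]; exact graph_mem p

lemma cm (hS : S.dim = n) (p : V ⟶ S) : C.Deg n (C.cograph p) := by
  rw [← hS]; exact cograph_mem p

lemma pp_ne (h : Pw C n N p a c κ) {i j : ℕ} (hi : i < N) (hj : j < N) (hij : i ≠ j)
    (x : M.M S) : M.act (C.graph (p j)) (M.act (C.cograph (p i)) x) = 0 := by
  rw [← M.laws.comp x h.dimS h.dimV h.dimS (cm h.dimS _) (gm h.dimS _), cog_gr,
    h.pq i hi j hj hij]
  exact act_pow_zero h.dimS h.dimS h.ha h.ha c x

lemma pp_eq (h : Pw C n N p a c κ) {i : ℕ} (hi : i < N) (x : M.M S) :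
    M.act (C.graph (p i)) (M.act (C.cograph (p i)) x) = (κ : F) • x := by
  rw [← M.laws.comp x h.dimS h.dimV h.dimS (cm h.dimS _) (gm h.dimS _),
    cog_gr_self (h.pp i hi)]
  refine (M.laws.smul κ x h.dimS h.dimS (gm h.dimS (𝟙 S))).trans ?_
  rw [M.laws.id x h.dimS]

end power

variable {P Q : ∀ X, M.M X → Prop}

/-- Bounded subquotients vanish. -/
theorem of_bounded (hP : Stable M P) (hQ : Stable M Q)
    (hB : ∀ (S : 𝒱.Obj) (N : ℕ), S.dim = n → HasPower C n N S) {D : ℕ}
    (hD : ∀ (X : 𝒱.Obj) (x : Fin (D + 1) → M.M X), X.dim = n → (∀ i, P X (x i)) →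
      ∃ c : Fin (D + 1) → F, c ≠ 0 ∧ Q X (∑ i, c i • x i))
    (X : 𝒱.Obj) (x : M.M X) (hX : X.dim = n) (hx : P X x) : Q X x := by
  obtain ⟨V, p, a, c, κ, h⟩ := exists_pw hX (hB X (D + 1) hX)
  obtain ⟨b, hb, hb2⟩ := hD V (fun i => M.act (C.cograph (p i)) x) h.dimV
    (fun i => hP.act h.dimS h.dimV (cm h.dimS _) hx)
  obtain ⟨i, hi⟩ : ∃ i, b i ≠ 0 := by
    by_contra hcon
    push Not at hcon
    exact hb (funext hcon)
  have h1 := hQ.act (Γ := C.graph (p i)) h.dimV h.dimS (gm h.dimS _) hb2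
  rw [M.amap_sum, Finset.sum_eq_single i, M.amap_smul, pp_eq h i.2, smul_smul] at h1
  · have h2 : b i * (κ : F) ≠ 0 := mul_ne_zero hi (Rat.cast_ne_zero.2 h.hκ)
    have h3 := hQ.smul (b i * (κ : F))⁻¹ h1
    rwa [smul_smul, inv_mul_cancel₀ h2, one_smul] at h3
  · intro j _ hj
    rw [M.amap_smul, pp_ne h j.2 i.2 (fun e => hj (Fin.ext e)), smul_zero]
  · intro h0
    exact absurd (Finset.mem_univ i) h0

lemma act_mt' (hS : S.dim = n) (hV : V.dim = n) (p q : V ⟶ S) (s : M.M V) :
    M.act (mt C p q) s = M.act (C.cograph q) (M.act (C.graph p) s) :=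
  M.laws.comp s hV hS hV (gm hS p) (cm hS q)

omit hC in
lemma mops_cons (Γ : C.A (X.prod X)) (W : List (C.A (X.prod X))) (x : M.M X) :
    mops M (Γ :: W) x = mops M W (M.act Γ x) := rfl

omit hC in
lemma mops_zero (W : List (C.A (X.prod X))) : mops M W (0 : M.M X) = 0 := by
  induction W with
  | nil => rfl
  | cons Γ W ih => rw [mops_cons, M.amap_zero, ih]

omit hC in
lemma mops_smul (W : List (C.A (X.prod X))) (q : F) (x : M.M X) :
    mops M W (q • x) = q • mops M W x := by
  induction W generalizing x with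
  | nil => rfl
  | cons Γ W ih => rw [mops_cons, mops_cons, M.amap_smul, ih]

omit hC in
lemma mops_add (W : List (C.A (X.prod X))) (x y : M.M X) :
    mops M W (x + y) = mops M W x + mops M W y := by
  induction W generalizing x y with
  | nil => rfl
  | cons Γ W ih => rw [mops_cons, mops_cons, mops_cons, M.amap_add, ih]

section stair

variable {N d : ℕ} {p : ℕ → (V ⟶ S)} {a : C.A S} {c κ : ℚ}

lemma mops_ne (h : Pw C n (d + 1) p a c κ) (x : M.M S) (l : List (Fin d)) (e : ℕ) (he : e ≤ d)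
    (hl : ¬ (∀ q : ℕ, ∀ hq : q < l.length, (l[q] : ℕ) = e + q)) :
    mops M (l.map fun i : Fin d => mt C (p i) (p (i + 1))) (M.act (C.cograph (p e)) x) = 0 := by
  induction l generalizing e with
  | nil => exact absurd (fun q hq => absurd hq (by simp)) hl
  | cons i l ih =>
    rw [List.map_cons, mops_cons, act_mt' h.dimS h.dimV]
    by_cases him : (i : ℕ) = e
    · subst him
      rw [pp_eq h (by omega), M.amap_smul, mops_smul, ih (i + 1) (by omega), smul_zero]
      intro hcon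
      apply hl
      intro q hq
      cases q with
      | zero => rfl
      | succ q =>
        rw [List.getElem_cons_succ, hcon q (by simpa using hq)]
        ring
    · rw [pp_ne h (i := e) (j := i) (by omega) (by have := i.2; omega)
        (Ne.symm him), M.amap_zero, mops_zero]

lemma mops_stair (h : Pw C n (d + 1) p a c κ) (x : M.M S) (f e : ℕ) (he : e + f = d)
    (l : List (Fin d)) (hle : l.length = f)
    (hl : ∀ q : ℕ, ∀ hq : q < l.length, (l[q] : ℕ) = e + q) :
    mops M (l.map fun i : Fin d => mt C (p i) (p (i + 1))) (M.act (C.cograph (p e)) x) =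
      (κ : F) ^ f • M.act (C.cograph (p d)) x := by
  induction f generalizing e l with
  | zero =>
    rw [List.length_eq_zero_iff] at hle
    subst hle
    rw [add_zero] at he
    subst he
    rw [pow_zero, one_smul]
    rfl
  | succ f ih =>
    obtain ⟨i, l', rfl⟩ := List.exists_cons_of_length_eq_add_one hle
    have h1 : (i : ℕ) = e := by
      have := hl 0 (by simp)
      simpa using this
    rw [List.map_cons, mops_cons, act_mt' h.dimS h.dimV]
    rw [← h1, pp_eq h (by omega), M.amap_smul, mops_smul,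
      ih (i + 1) (by omega) l' (by simpa using hle) (fun q hq => ?_), smul_smul, ← pow_succ']
    have := hl (q + 1) (by simpa using hq)
    rw [List.getElem_cons_succ] at this
    omega

end stair

/-- A polynomial identity on a subquotient implies that it vanishes. -/
theorem of_identity (hP : Stable M P) (hQ : Stable M Q)
    (hB : ∀ (S : 𝒱.Obj) (N : ℕ), S.dim = n → HasPower C n N S) {d : ℕ}
    {c : Equiv.Perm (Fin d) → F} (hc : c ≠ 0)
    (hI : ∀ (X : 𝒱.Obj) (W : Fin d → C.A (X.prod X)) (x : M.M X), X.dim = n →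
      (∀ i, C.Deg n (W i)) → P X x → Q X (∑ σ, c σ • mops M (List.ofFn fun i => W (σ i)) x))
    (X : 𝒱.Obj) (x : M.M X) (hX : X.dim = n) (hx : P X x) : Q X x := by
  obtain ⟨V, p, a, b, κ, h⟩ := exists_pw hX (hB X (d + 1) hX)
  obtain ⟨σ, hσ⟩ : ∃ σ, c σ ≠ 0 := by
    by_contra hcon
    push Not at hcon
    exact hc (funext hcon)
  have h1 := hI V (fun i => mt C (p (σ⁻¹ i)) (p (σ⁻¹ i + 1))) (M.act (C.cograph (p 0)) x) h.dimV
    (fun i => mt_mem h.dimS h.dimV _ _) (hP.act h.dimS h.dimV (cm h.dimS _) hx)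
  have e0 : ∀ τ : Equiv.Perm (Fin d), (List.ofFn fun i => mt C (p (σ⁻¹ (τ i)))
      (p (σ⁻¹ (τ i) + 1))) = (List.ofFn fun i => (σ⁻¹ * τ) i).map fun i : Fin d =>
        mt C (p i) (p (i + 1)) := by
    intro τ
    rw [List.map_ofFn]
    rfl
  rw [Finset.sum_eq_single σ] at h1
  · rw [e0, inv_mul_cancel, mops_stair h x d 0 (by omega) _ (by simp) (by intro q hq; simp),
      smul_smul] at h1
    have hκ : (κ : F) ≠ 0 := Rat.cast_ne_zero.2 h.hκ
    have h2 : c σ * (κ : F) ^ d ≠ 0 := mul_ne_zero hσ (pow_ne_zero _ hκ)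
    have h3 := hQ.smul (c σ * (κ : F) ^ d)⁻¹ h1
    rw [smul_smul, inv_mul_cancel₀ h2, one_smul] at h3
    have h4 := hQ.act (Γ := C.graph (p d)) h.dimV h.dimS (gm h.dimS _) h3
    rw [pp_eq h (by omega)] at h4
    have h5 := hQ.smul (κ : F)⁻¹ h4
    rwa [smul_smul, inv_mul_cancel₀ hκ, one_smul] at h5
  · intro τ _ hτ
    rw [e0, mops_ne h x _ 0 (by omega), smul_zero]
    intro hcon
    apply hτ
    have h3 : σ⁻¹ * τ = 1 := by
      ext i
      have := hcon i (by simp)
      simpa using this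
    rw [inv_mul_eq_one] at h3
    exact h3.symm
  · intro h0
    exact absurd (Finset.mem_univ σ) h0

omit hC in
/-- The commutator as a multilinear expression. -/
lemma comm_expr (W : Fin 2 → C.A (X.prod X)) (x : M.M X) : ∑ σ : Equiv.Perm (Fin 2),
        (if σ = 1 then (1 : F) else -1) • mops M (List.ofFn fun i => W (σ i)) x =
      M.act (W 1) (M.act (W 0) x) - M.act (W 0) (M.act (W 1) x) := by
  have h2 : (Finset.univ : Finset (Equiv.Perm (Fin 2))) = {1, Equiv.swap 0 1} := by decide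
  have h3 : (1 : Equiv.Perm (Fin 2)) ≠ Equiv.swap 0 1 := by decide
  rw [h2, Finset.sum_pair h3, if_pos rfl, if_neg h3.symm]
  simp only [List.ofFn_succ, List.ofFn_zero, Equiv.Perm.one_apply, one_smul, neg_smul,
    Equiv.swap_apply_left, Fin.succ_zero_eq_one, Equiv.swap_apply_right, mops, List.foldl_cons,
    List.foldl_nil, ← sub_eq_add_neg]

end Pool.Agent.V1157.AJ
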