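import Pool.Agent.V1157.KF.Defs
import Pool.Agent.W492.BB.Calc

/-!
# Abel-Jacobi maps onto Selmer groups: definitions
-/

open CategoryTheory AlgebraicGeometry

universe u v w

namespace Pool.Agent.V1157.AJ

open Pool.Agent.H914 Pool.Agent.H914.VarClass Pool.Agent.H914.VarClass.Obj Pool.Agent.W492.BB
  Pool.Agent.V1157.KF

variable {k : Type u} [Field k] {𝒱 : VarClass k}

/-- Vector spaces `M(X)` over the field `F`, for the varieties `X` of the class `𝒱`, and maps
`M(X) → M(Y)` induced by correspondences. -/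
structure ActData (C : TheoryData.{u, v, 0} 𝒱 ℚ) (F : Type) [Field F] where
  /-- the vector space `M(X)` -/
  M : 𝒱.Obj → Type w
  [grp : ∀ X, AddCommGroup (M X)]
  [mod : ∀ X, Module F (M X)]
  /-- the action of the correspondences -/
  act : ∀ {X Y : 𝒱.Obj}, C.A (X.prod Y) → M X → M Y

attribute [instance] ActData.grp ActData.mod

/-- The maps induced by correspondences are `F`-linear. -/
structure ActData.Linear {C : TheoryData.{u, v, 0} 𝒱 ℚ} {F : Type} [Field F]
    (M : ActData.{u, v, w} C F) : Prop where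
  map_add : ∀ {X Y : 𝒱.Obj} (Γ : C.A (X.prod Y)) (x y : M.M X),
    M.act Γ (x + y) = M.act Γ x + M.act Γ y
  map_smul : ∀ {X Y : 𝒱.Obj} (Γ : C.A (X.prod Y)) (c : F) (x : M.M X),
    M.act Γ (c • x) = c • M.act Γ x

/-- The correspondences of degree zero between the varieties of dimension `n` act: the map
`M(X) → M(Y)` induced by a class `Γ` in `A^n(X × Y)` is `ℚ`-linear in `Γ`, compatible with
composition, and zero if `Γ = a × b` with homogeneous classes `a` on `X` and `b` on `Y`. -/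
structure ActData.Laws {C : TheoryData.{u, v, 0} 𝒱 ℚ} {F : Type} [Field F]
    (M : ActData.{u, v, w} C F) (n : ℕ) : Prop where
  add : ∀ {X Y : 𝒱.Obj} {Γ Δ : C.A (X.prod Y)} (x : M.M X), X.dim = n → Y.dim = n →
    C.Deg n Γ → C.Deg n Δ → M.act (Γ + Δ) x = M.act Γ x + M.act Δ x
  smul : ∀ {X Y : 𝒱.Obj} {Γ : C.A (X.prod Y)} (q : ℚ) (x : M.M X), X.dim = n → Y.dim = n →
    C.Deg n Γ → M.act (q • Γ) x = (q : F) • M.act Γ x
  comp : ∀ {X Y Z : 𝒱.Obj} {Γ : C.A (X.prod Y)} {Δ : C.A (Y.prod Z)} (x : M.M X), X.dim = n →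
    Y.dim = n → Z.dim = n → C.Deg n Γ → C.Deg n Δ → M.act (C.comp Γ Δ) x = M.act Δ (M.act Γ x)
  id : ∀ {X : 𝒱.Obj} (x : M.M X), X.dim = n → M.act (C.graph (𝟙 X)) x = x
  ext : ∀ {X Y : 𝒱.Obj} (i : ℤ) {a : C.A X} {b : C.A Y} (x : M.M X), X.dim = n → Y.dim = n →
    C.Deg i a → C.Deg (n - i) b → M.act (C.ext a b) x = 0

/-- Vector spaces `M(X)` over the field `F` on which the correspondences of degree zero between
the varieties of dimension `n` act `F`-linearly. -/
structure CorrModule (C : TheoryData.{u, v, 0} 𝒱 ℚ) (n : ℕ) (F : Type) [Field F] extends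
    ActData.{u, v, w} C F where
  linear : toActData.Linear
  laws : toActData.Laws n

variable {C : TheoryData.{u, v, 0} 𝒱 ℚ} {n : ℕ} {F : Type} [Field F]

/-- The composition of the actions of the correspondences in the list `W`, the first one acting
first. -/
def mops (M : CorrModule.{u, v, w} C n F) {X : 𝒱.Obj} (W : List (C.A (X.prod X))) (x : M.M X) :
    M.M X :=
  W.foldl (fun s Γ => M.act Γ s) x

/-- The linear combination `∑ c_i x_i`. -/
def comb (M : CorrModule.{u, v, w} C n F) {X : 𝒱.Obj} {N : ℕ} (c : Fin N → F)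
    (x : Fin N → M.M X) : M.M X :=
  ∑ i, c i • x i

/-- The value `∑ c(σ) W_{σ(1)} W_{σ(2)} ⋯ W_{σ(d)} x`, the sum over all permutations `σ`. -/
def polyValue (M : CorrModule.{u, v, w} C n F) {X : 𝒱.Obj} {d : ℕ} (c : Equiv.Perm (Fin d) → F)
    (W : Fin d → C.A (X.prod X)) (x : M.M X) : M.M X :=
  ∑ σ, c σ • mops M (List.ofFn fun i => W (σ i)) x

variable {K : Type w} [Field K] (H : WeilTheoryData.{u, v, w} C K)

/-- The maps `x ↦ x ⊗ 1` identify `B(X)` with the `F`-vector space spanned by the homologically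
trivial cycles of codimension `m` on `X`: `B(X)` is generated by the elements `x ⊗ 1`, and
`ℚ`-linearly independent cycles `x` give `F`-linearly independent elements `x ⊗ 1`. -/
structure IsSpan (m : ℕ) (B : CorrModule.{u, v, w} C n F) (ι : ∀ {X : 𝒱.Obj}, C.A X → B.M X) :
    Prop where
  add : ∀ {X : 𝒱.Obj} {x y : C.A X}, HomTriv H m x → HomTriv H m y → ι (x + y) = ι x + ι y
  smul : ∀ {X : 𝒱.Obj} {x : C.A X} (q : ℚ), HomTriv H m x → ι (q • x) = (q : F) • ι x
  act : ∀ {X Y : 𝒱.Obj} {Γ : C.A (X.prod Y)} {x : C.A X}, X.dim = n → Y.dim = n →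
    C.Deg n Γ → HomTriv H m x → B.act Γ (ι x) = ι (C.act Γ x)
  span : ∀ {X : 𝒱.Obj} (b : B.M X), ∃ (N : ℕ) (x : Fin N → C.A X) (c : Fin N → F),
    (∀ i, HomTriv H m (x i)) ∧ b = comb B c fun i => ι (x i)
  indep : ∀ {X : 𝒱.Obj} (N : ℕ) (x : Fin N → C.A X) (c : Fin N → F),
    (∀ i, HomTriv H m (x i)) → (∀ q : Fin N → ℚ, ∑ i, q i • x i = 0 → q = 0) →
      comb B c (fun i => ι (x i)) = 0 → c = 0

/-- The Abel-Jacobi maps with coefficients in the field `F` for the homologically trivial cycles of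
codimension `m` on the varieties `X` of dimension `n`: for each `X` the `F`-vector space `B(X)`
spanned by these cycles, another `F`-vector space `S(X)` (the Selmer group), both with an action of
correspondences, and a linear map `B(X) → S(X)`, compatible with the correspondences. -/
structure AbelJacobi (n m : ℕ) (F : Type) [Field F] where
  /-- the cycles -/
  B : CorrModule.{u, v, w} C n F
  /-- the Selmer groups -/
  S : CorrModule.{u, v, w} C n F
  /-- the element `x ⊗ 1` of `B(X)`, for a homologically trivial cycle `x` -/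
  ι : ∀ {X : 𝒱.Obj}, C.A X → B.M X
  isSpan : IsSpan H m B ι
  /-- the Abel-Jacobi map -/
  aj : ∀ X : 𝒱.Obj, B.M X → S.M X
  aj_add : ∀ {X : 𝒱.Obj} (b b' : B.M X), aj X (b + b') = aj X b + aj X b'
  aj_smul : ∀ {X : 𝒱.Obj} (c : F) (b : B.M X), aj X (c • b) = c • aj X b
  aj_act : ∀ {X Y : 𝒱.Obj} {Γ : C.A (X.prod Y)} (b : B.M X), X.dim = n → Y.dim = n →
    C.Deg n Γ → aj Y (B.act Γ b) = S.act Γ (aj X b)

variable {H} {m : ℕ} (a : AbelJacobi.{u, v, w} H n m F)

/-- For all varieties `X` of dimension `n`, the Abel-Jacobi map of `X` is an isomorphism. -/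
def IsIso : Prop := ∀ X : 𝒱.Obj, X.dim = n → Function.Bijective (a.aj X)

/-- For all varieties `X` of dimension `n` and all idempotent correspondences `e` of degree zero,
the Abel-Jacobi map is an isomorphism from `e B(X)` to `e S(X)`. -/
def IsIsoOnParts : Prop := ∀ (X : 𝒱.Obj) (e : C.A (X.prod X)), X.dim = n → C.Deg n e →
  C.comp e e = e → (∀ b : a.B.M X, a.aj X (a.B.act e b) = 0 → a.B.act e b = 0) ∧
    ∀ s : a.S.M X, ∃ b : a.B.M X, a.aj X (a.B.act e b) = a.S.act e s

/-- For all varieties `X` of dimension `n`, the kernel and the cokernel of the Abel-Jacobi map have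
dimension at most `D`. -/
def BothAtMost (D : ℕ) : Prop := ∀ X : 𝒱.Obj, X.dim = n →
  (∀ b : Fin (D + 1) → a.B.M X, (∀ i, a.aj X (b i) = 0) →
    ∃ c : Fin (D + 1) → F, c ≠ 0 ∧ comb a.B c b = 0) ∧
  ∀ s : Fin (D + 1) → a.S.M X, ∃ c : Fin (D + 1) → F, c ≠ 0 ∧
    ∃ b : a.B.M X, a.aj X b = comb a.S c s

/-- For all varieties `X` of dimension `n`, any two self-correspondences of degree zero commute in
their actions on the kernel and on the cokernel of the Abel-Jacobi map. -/
def Commuting : Prop := ∀ (X : 𝒱.Obj) (Γ Δ : C.A (X.prod X)), X.dim = n → C.Deg n Γ →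
  C.Deg n Δ →
    (∀ b : a.B.M X, a.aj X b = 0 →
      a.B.act Γ (a.B.act Δ b) = a.B.act Δ (a.B.act Γ b)) ∧
    ∀ s : a.S.M X, ∃ b : a.B.M X,
      a.aj X b = a.S.act Γ (a.S.act Δ s) - a.S.act Δ (a.S.act Γ s)

/-- The actions of any `d` self-correspondences of degree zero on the kernels and on the cokernels
satisfy the multilinear polynomial identity `∑ c(σ) W_{σ(1)} W_{σ(2)} ⋯ W_{σ(d)} = 0`, the sum over
all permutations `σ`. -/
def Identity (d : ℕ) (c : Equiv.Perm (Fin d) → F) : Prop :=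
  ∀ (X : 𝒱.Obj) (W : Fin d → C.A (X.prod X)), X.dim = n → (∀ i, C.Deg n (W i)) →
    (∀ b : a.B.M X, a.aj X b = 0 → polyValue a.B c W b = 0) ∧
    ∀ s : a.S.M X, ∃ b : a.B.M X, a.aj X b = polyValue a.S c W s

end Pool.Agent.V1157.AJ
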