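import Pool.Agent.V1157.AJ.Core

/-!
# Abel-Jacobi maps onto Selmer groups
-/

open CategoryTheory AlgebraicGeometry

universe u v w

namespace Pool.Agent.V1157.AJ

open Pool.Agent.H914 Pool.Agent.H914.VarClass Pool.Agent.H914.VarClass.Obj Pool.Agent.W492.BB
  Pool.Agent.W550.Corr Pool.Agent.TH133 Pool.Agent.Y148.BB Pool.Agent.V1157.KF
open Pool.Agent.V1157.RC (graph_mem)

set_option linter.unusedSectionVars false

variable {k : Type u} [Field k] {𝒱 : VarClass k} {C : TheoryData.{u, v, 0} 𝒱 ℚ}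
  [hC : IsChowProj C] {K : Type w} [Field K] {H : WeilTheoryData.{u, v, w} C K}
  {n m : ℕ} {F : Type} [Field F] [CharZero F]

/-- The kernels. -/
def Ker (a : AbelJacobi.{u, v, w} H n m F) (X : 𝒱.Obj) (b : a.B.M X) : Prop :=
  X.dim = n ∧ a.aj X b = 0

/-- The images. -/
def Img (a : AbelJacobi.{u, v, w} H n m F) (X : 𝒱.Obj) (s : a.S.M X) : Prop :=
  ∃ b, a.aj X b = s

variable (a : AbelJacobi.{u, v, w} H n m F)

/-- The Abel-Jacobi map as a linear map. -/
def AbelJacobi.L (X : 𝒱.Obj) : a.B.M X →ₗ[F] a.S.M X where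
  toFun := a.aj X
  map_add' := a.aj_add
  map_smul' := a.aj_smul

lemma aj_zero (X : 𝒱.Obj) : a.aj X 0 = 0 := map_zero (a.L X)

lemma inj_of {X : 𝒱.Obj} (h : ∀ b, a.aj X b = 0 → b = 0) : Function.Injective (a.aj X) :=
  (injective_iff_map_eq_zero (a.L X)).2 h

lemma ker_stable : Stable a.B (Ker a) where
  add hx hy := ⟨hx.1, by rw [a.aj_add, hx.2, hy.2, add_zero]⟩
  smul c hx := ⟨hx.1, by rw [a.aj_smul, hx.2, smul_zero]⟩
  act hX hY hΓ hx := ⟨hY, by rw [a.aj_act _ hX hY hΓ, hx.2, a.S.amap_zero]⟩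

lemma img_stable : Stable a.S (fun X s => X.dim = n → Img a X s) where
  add hx hy hX := by
    obtain ⟨b, hb⟩ := hx hX
    obtain ⟨b', hb'⟩ := hy hX
    exact ⟨b + b', by rw [a.aj_add, hb, hb']⟩
  smul c hx hX := by
    obtain ⟨b, hb⟩ := hx hX
    exact ⟨c • b, by rw [a.aj_smul, hb]⟩
  act {X Y Γ x} hX hY hΓ hx _ := by
    obtain ⟨b, hb⟩ := hx hX
    exact ⟨a.B.act Γ b, by rw [a.aj_act _ hX hY hΓ, hb]⟩

lemma zero_stable : Stable a.B (fun _ b => b = 0) where
  add hx hy := by rw [hx, hy, add_zero]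
  smul c hx := by rw [hx, smul_zero]
  act _ _ _ hx := by rw [hx, a.B.amap_zero]

lemma top_stable : Stable a.S (fun _ _ => True) where
  add _ _ := trivial
  smul _ _ := trivial
  act _ _ _ _ := trivial

/-- **The Abel-Jacobi maps are isomorphisms if their kernels and cokernels have bounded
dimensions.** -/
theorem aj_main (hB : ∀ (S : 𝒱.Obj) (N : ℕ), S.dim = n → HasPower C n N S) :
    List.TFAE [IsIsoOnParts a, IsIso a, ∃ D, BothAtMost a D, Commuting a,
      ∃ (d : ℕ) (c : Equiv.Perm (Fin d) → F), c ≠ 0 ∧ Identity a d c] := by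
  tfae_have 2 → 1 := by
    intro h X e hX he hee
    refine ⟨fun b hb => ?_, fun s => ?_⟩
    · exact (h X hX).1 (by rw [hb, aj_zero])
    · obtain ⟨b, hb⟩ := (h X hX).2 s
      exact ⟨b, by rw [a.aj_act _ hX hX he, hb]⟩
  tfae_have 1 → 2 := by
    intro h X hX
    have hg : C.Deg n (C.graph (𝟙 X)) := by rw [← hX]; exact graph_mem _
    have hc : C.comp (C.graph (𝟙 X)) (C.graph (𝟙 X)) = C.graph (𝟙 X) := comp_dg C (dg C X)
    obtain ⟨h1, h2⟩ := h X (C.graph (𝟙 X)) hX hg hc
    constructor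
    · refine inj_of a fun b hb => ?_
      have := h1 b (by rw [a.B.laws.id b hX, hb])
      rwa [a.B.laws.id b hX] at this
    · intro s
      obtain ⟨b, hb⟩ := h2 s
      rw [a.B.laws.id b hX, a.S.laws.id s hX] at hb
      exact ⟨b, hb⟩
  tfae_have 2 → 3 := by
    intro h
    refine ⟨0, fun X hX => ⟨fun b hb => ⟨fun _ => 1, ?_, ?_⟩, fun s => ⟨fun _ => 1, ?_, ?_⟩⟩⟩
    · intro h1
      exact one_ne_zero (congrFun h1 0)
    · apply Finset.sum_eq_zero
      intro i _
      have : b i = 0 := (h X hX).1 (by rw [hb i, aj_zero])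
      rw [this, smul_zero]
    · intro h1
      exact one_ne_zero (congrFun h1 0)
    · exact (h X hX).2 _
  tfae_have 3 → 2 := by
    rintro ⟨D, hD⟩ X hX
    constructor
    · refine inj_of a fun b hb => ?_
      exact of_bounded (P := Ker a) (Q := fun _ b => b = 0) (ker_stable a) (zero_stable a) hB
        (D := D) (fun X x hX hx => (hD X hX).1 x fun i => (hx i).2) X b hX ⟨hX, hb⟩
    · intro s
      exact of_bounded (P := fun _ _ => True) (Q := fun X s => X.dim = n → Img a X s)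
        (top_stable a) (img_stable a) hB (D := D) (fun X x hX _ => by
          obtain ⟨c, hc, b, hb⟩ := (hD X hX).2 x
          exact ⟨c, hc, fun _ => ⟨b, hb⟩⟩) X s hX trivial hX
  tfae_have 2 → 4 := by
    intro h X Γ Δ hX _ _
    refine ⟨fun b hb => ?_, fun s => (h X hX).2 _⟩
    have : b = 0 := (h X hX).1 (by rw [hb, aj_zero])
    simp only [this, a.B.amap_zero]
  tfae_have 4 → 5 := by
    intro h
    refine ⟨2, fun σ => if σ = 1 then 1 else -1, ?_, ?_⟩
    · intro h1
      have := congrFun h1 1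
      simp at this
    · intro X W hX hW
      refine ⟨fun b hb => ?_, fun s => ?_⟩
      · rw [polyValue, comm_expr, ((h X (W 1) (W 0) hX (hW 1) (hW 0)).1 b hb), sub_self]
      · obtain ⟨b, hb⟩ := (h X (W 1) (W 0) hX (hW 1) (hW 0)).2 s
        exact ⟨b, by rw [hb, polyValue, comm_expr]⟩
  tfae_have 5 → 2 := by
    rintro ⟨d, c, hc, hI⟩ X hX
    constructor
    · refine inj_of a fun b hb => ?_
      exact of_identity (P := Ker a) (Q := fun _ b => b = 0) (ker_stable a) (zero_stable a) hB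
        hc (fun X W x hX hW hx => (hI X W hX hW).1 x hx.2) X b hX ⟨hX, hb⟩
    · intro s
      exact of_identity (P := fun _ _ => True) (Q := fun X s => X.dim = n → Img a X s)
        (top_stable a) (img_stable a) hB hc (fun X W x hX hW _ _ =>
          (hI X W hX hW).2 x) X s hX trivial hX
  tfae_finish

end Pool.Agent.V1157.AJ
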